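import Pool.Agent.Lib.UL.All

open Pool.Agent.Lib.MP_0f05cd_nt

/-- Ulam's sequence grows at most like exp (C sqrt n log^8 n). -/
theorem Pool.Agent.Results.MP_0f05cd_nt.SubexpGrowth.result (u : ℕ → ℕ) (hu : IsUlam u) :
    ∃ C : ℝ, ∃ n₀ : ℕ, ∀ n : ℕ, n₀ ≤ n →
      (u n : ℝ) ≤ Real.exp (C * Real.sqrt n * Real.log n ^ 8) :=
  Pool.Agent.Lib.UL.all_MAIN u hu
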